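import Pool.Agent.H52.TL.Abs
import Pool.Agent.H52.TL.Bd

/-!
# One power of `ℓ` decides whether a lisse sheaf is of geometric origin, for varieties with bounded
# Betti numbers and bounded ramification

Let `K` be a field, for example the function field of a smooth irreducible variety `X` over a finite
field, `G_K` its absolute Galois group, and let `Frob x` be subsets of `G_K` with dense union, for
example the sets of the Frobenius elements at the closed points `x` of `X`.  Let `R` be a subgroup of
`G_K` such that for each `D` only finitely many open normal subgroups of index at most `D` contain `R`;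
this holds if the profinite group `G_K / R` is topologically finitely generated, for example if it is
the tame fundamental group of `X`, or if `R` is the kernel of the map to `π_1(X)` enlarged by the wild
inertia groups at the boundary of a finite étale covering of `X` (bounded wild ramification).  Fix a
prime number `ℓ`, a finite extension `k` of `ℚ_ℓ` with ring of integers `O`, a number field `E` in `k`,
numbers `n`, `N`, and for each point `x` a denominator `d x` and a real number `b x`.

There are a finite set `T` of points and ONE number `m` with the following property.  Let `ρ` be an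
irreducible representation of `G_K` over `k` of dimension `n`, for example the one of an irreducible
lisse sheaf with determinant of finite order, and let `W` be a representation of dimension at most `N`
with the stable lattice `O ^ N'`, for example `H^i(Y, O)(j)` modulo torsion for a smooth proper
variety `Y` over `K`, both continuous and trivial on `R`, such that the Frobenius polynomials are
rational over `E`, with denominators dividing `d x`, and with all complex conjugates of the roots of
absolute value at most `b x`; this is needed only at the points `x` in `T`.  (By the theorems of Deligne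
and Lafforgue this holds in the examples, with `d x = q_x ^ a` and `b x = q_x ^ c` for suitable `a` and
`c`, where `q_x` is the number of elements of the residue field of `x`.)  Then `ρ` is a subquotient of
`W` if and only if `ρ` occurs in `W` modulo `ℓ ^ m`: for some stable lattice `Λ` of `ρ`, every element of
the group ring `O[G_K]` which kills `O ^ N' / ℓ ^ m` kills `Λ / ℓ ^ m`.  (In other words,
`Λ / ℓ ^ m` is a subquotient of a direct sum of finitely many copies of `O ^ N' / ℓ ^ m`.)  In this case
`ρ` occurs in `W` modulo all powers of `ℓ`.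

So a lisse sheaf with these bounds is a subquotient of the cohomology of a variety with Betti number
at most `N` and ramification bounded by `R` if and only if this is true modulo `ℓ ^ m`, where `m` does
not depend on the sheaf and on the variety.  `W` need not be semisimple, and no purity is assumed.
-/

set_option autoImplicit false

open Polynomial

namespace Pool.Agent.Results.MP_80bee4_ag.OneLevel

/-- the absolute Galois group of `K` -/
abbrev G (K : Type) [Field K] : Type := Gal(SeparableClosure K/K)

/-- `f` comes from a polynomial over the number field `E` whose coefficients, multiplied by `d`, are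
algebraic integers, and all roots of all its complex conjugates have absolute value at most `b` -/
def Bounded {k E : Type} [Field k] [Field E] (ι : E →+* k) (d : ℕ) (b : ℝ) (f : k[X]) : Prop :=
  ∃ g : E[X], g.map ι = f ∧ (∀ i, IsIntegral ℤ ((d : E) * g.coeff i)) ∧
    ∀ (φ : E →+* ℂ) (z : ℂ), (g.map φ).eval z = 0 → ‖z‖ ≤ b

section rep

variable {K : Type} [Field K] {X : Type} {k : Type} [NormedField k] {n N : ℕ}

/-- `ρ` is continuous and trivial on `R`, and the Frobenius polynomials at the points `x` of `T` are
rational over `E`, with denominators dividing `d x` and complex roots bounded by `b x` -/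
structure Admissible (R : Subgroup (G K)) (Frob : X → Set (G K)) {E : Type} [Field E]
    (ι : E →+* k) (d : X → ℕ) (b : X → ℝ) (T : Finset X) (ρ : G K →* GL (Fin n) k) : Prop where
  continuous : Continuous ρ
  trivial_on : ∀ g ∈ R, ρ g = 1
  bounded : ∀ x ∈ T, ∀ σ ∈ Frob x,
    Bounded ι (d x) (b x) (ρ σ : Matrix (Fin n) (Fin n) k).charpoly

/-- `ρ` is irreducible -/
def Irreducible (ρ : G K →* GL (Fin n) k) : Prop :=
  0 < n ∧ ∀ V : Submodule k (Fin n → k),
    (∀ g, ∀ x ∈ V, (ρ g : Matrix (Fin n) (Fin n) k).mulVec x ∈ V) → V = ⊥ ∨ V = ⊤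

/-- `ρ` is a subquotient of `W`: there is a stable subspace `Y` of the space of `W` with an
equivariant linear map from `Y` onto the space of `ρ` (extended in some way to a linear map `f` on
the space of `W`) -/
def Subquotient (ρ : G K →* GL (Fin n) k) (W : G K →* GL (Fin N) k) : Prop :=
  ∃ (Y : Submodule k (Fin N → k)) (f : (Fin N → k) →ₗ[k] (Fin n → k)),
    (∀ g, ∀ y ∈ Y, (W g : Matrix (Fin N) (Fin N) k).mulVec y ∈ Y) ∧ Y.map f = ⊤ ∧
    ∀ g, ∀ y ∈ Y, f ((W g : Matrix (Fin N) (Fin N) k).mulVec y) =
      (ρ g : Matrix (Fin n) (Fin n) k).mulVec (f y)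

/-- the matrices of `W` are integral: `O ^ N` is a stable lattice -/
def Integral (W : G K →* GL (Fin N) k) : Prop :=
  ∀ g i j, ‖(W g : Matrix (Fin N) (Fin N) k) i j‖ ≤ 1

/-- `ρ` occurs in `W` modulo `ℓ ^ m`: in some basis the matrices of `ρ` are integral (this is the
choice of a stable lattice `Λ`), and every element `∑ c_g g` of the group ring with integral
coefficients which is zero modulo `ℓ ^ m` on `W` is zero modulo `ℓ ^ m` on `ρ` -/
def OccursModulo (ℓ m : ℕ) (ρ : G K →* GL (Fin n) k) (W : G K →* GL (Fin N) k) : Prop :=
  ∃ A : GL (Fin n) k,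
    (∀ g i j, ‖((A * ρ g * A⁻¹ : GL (Fin n) k) : Matrix (Fin n) (Fin n) k) i j‖ ≤ 1) ∧
    ∀ (s : Finset (G K)) (c : G K → k), (∀ g ∈ s, ‖c g‖ ≤ 1) →
      (∀ i j, ‖(∑ g ∈ s, c g • (W g : Matrix (Fin N) (Fin N) k)) i j‖ ≤ ((ℓ : ℝ) ^ m)⁻¹) →
      ∀ i j, ‖(∑ g ∈ s, c g • ((A * ρ g * A⁻¹ : GL (Fin n) k) : Matrix (Fin n) (Fin n) k)) i j‖ ≤
        ((ℓ : ℝ) ^ m)⁻¹

end rep

/-- **One power of `ℓ` decides.**  There are a finite set `T` of points and one number `m`, such that
for all irreducible admissible `ρ` of dimension `n` and all integral admissible `W` of dimension at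
most `N`: `ρ` is a subquotient of `W` if and only if `ρ` occurs in `W` modulo `ℓ ^ m`, and then it occurs
in `W` modulo all powers of `ℓ`. -/
theorem result (K : Type) [Field K] (R : Subgroup (G K))
    (hR : ∀ D : ℕ, {H : Subgroup (G K) | H.Normal ∧ IsOpen (H : Set (G K)) ∧ R ≤ H ∧
      H.index ≤ D}.Finite)
    (X : Type) (Frob : X → Set (G K)) (hFrob : Dense (⋃ x, Frob x)) (ℓ : ℕ) [Fact ℓ.Prime]
    (k : Type) [NormedField k] [NormedAlgebra ℚ_[ℓ] k] (hk : FiniteDimensional ℚ_[ℓ] k)
    (E : Type) [Field E] [NumberField E] (ι : E →+* k) (d : X → ℕ) (hd : ∀ x, 0 < d x)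
    (b : X → ℝ) (n N : ℕ) :
    ∃ (T : Finset X) (m : ℕ), ∀ ρ : G K →* GL (Fin n) k,
      Admissible R Frob ι d b T ρ → Irreducible ρ →
        ∀ N' ≤ N, ∀ W : G K →* GL (Fin N') k, Admissible R Frob ι d b T W → Integral W →
          (Subquotient ρ W ↔ OccursModulo ℓ m ρ W) ∧
          (Subquotient ρ W → ∀ m', OccursModulo ℓ m' ρ W) := by
  classical
  let Φ : ℕ → X → Set k[X] := fun r x => {f | Bounded ι (d x) (b x) f ∧ f.Monic ∧ f.natDegree = r}
  have hΦ : ∀ r x, (Φ r x).Finite := fun r x =>
    Pool.Agent.H52.TL.bdd_finite ι r (d x) (b x) (hd x)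
  have hAdm : ∀ {r : ℕ} {T T' : Finset X} {ρ : G K →* GL (Fin r) k}, T' ⊆ T →
      Admissible R Frob ι d b T ρ → Pool.Agent.H52.TL.AdmX R Frob (Φ r) T' ρ := by
    intro r T T' ρ hT h
    refine ⟨h.continuous, h.trivial_on, fun x hx σ hσ => ⟨h.bounded x (hT hx) σ hσ,
      Matrix.charpoly_monic _, ?_⟩⟩
    rw [Matrix.charpoly_natDegree_eq_dim, Fintype.card_fin]
  choose T m hTm using fun N' : ℕ =>
    Pool.Agent.H52.TL.level_abs (k := k) R hR Frob hFrob ℓ n N' (Φ n) (Φ N') (hΦ n) (hΦ N')
  refine ⟨(Finset.range (N + 1)).biUnion T, (Finset.range (N + 1)).sup m, ?_⟩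
  intro ρ hρ hirr N' hN' W hW hint
  have hmem : N' ∈ Finset.range (N + 1) := Finset.mem_range.2 (by omega)
  have hsub : T N' ⊆ (Finset.range (N + 1)).biUnion T := Finset.subset_biUnion_of_mem T hmem
  have hconv : Subquotient ρ W → ∀ m', OccursModulo ℓ m' ρ W := fun h m' =>
    Pool.Agent.H52.TL.occ_of_isSub (p := ℓ) hint h m'
  refine ⟨⟨fun h => hconv h _, fun h => ?_⟩, hconv⟩
  exact hTm N' ρ W (hAdm hsub hρ) hirr (hAdm hsub hW)
    (Pool.Agent.H52.TL.Occ.mono (Finset.le_sup (f := m) hmem) h)

end Pool.Agent.Results.MP_80bee4_ag.OneLevel
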