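import Pool.Agent.H73.FF.Bridge

/-!
# Geometric origin over infinite solvable coverings

Let `K` be a field of characteristic `p > 0`, for example the function field of a smooth variety `X`
over a finite field, `ℓ ≠ p` a prime number and `ρ` a continuous representation of `G_K` over
`ℚ_ℓ-bar`, for example the one given by a lisse sheaf on `X`. Let `L` be an algebraic separable
extension of `K` of infinite degree, for example the function field of a pro-étale covering of `X`.
Suppose that the restriction of `ρ` to `G_L` comes from a variety `Y` over `L`. Then `Y` is defined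
over a finite subextension `K'` of `L`; regarded as a variety over `K` it has a cohomology `θ` (with
a Tate twist), a representation of `G_K` whose restriction to `G_K'` contains the cohomology of `Y`.
So `ρ|G_L` is a subquotient of `θ|G_L`. We ask how `ρ` itself is then obtained from `θ` over `K`.

In the theorem the difference between `ρ` and the part of the cohomology is given by a character of
`Gal(L/M)` for a finite extension `M` of `K`. For the function field `K` of a variety over a finite
field and representations unramified over an open part of the variety such characters are, by class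
field theory, of the form (finite order) times a constant field twist; this remark, and the fact
that by class field theory the condition on determinants in the last part holds if the field of
constants of `L` is finite, are not used in the Lean proof. The proof is by an analogue of the
theorem of Lie and Kolchin for continuous representations of profinite groups.
-/

set_option autoImplicit false

namespace Pool.Agent.Results.MP_80bee4_ag.SolvableCovers

open Pool.Agent.H73.FF.Stm

/-- Let `K` be a field of characteristic `p > 0`, `ℓ ≠ p` a prime number, `ρ` and `θ` continuous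
representations of `G_K` over `ℚ_ℓ-bar`, `n` the dimension of `ρ`, and `L/K` a Galois extension, of
finite or infinite degree, whose group is solvable (of finite derived length; the abelian layers may
be infinite).

Let `ρ` be irreducible. There is a nonzero homomorphism from `ρ|G_L` to `θ|G_L` if and only if for
some finite subextension `M` of `L` and some continuous character `χ` of `Gal(L/M)` the
representation `ρ` is a subrepresentation of the representation of `G_K` induced from `θ|G_M ⊗ χ`;
in particular this is so if `θ` is semisimple and `ρ|G_L` is a subquotient of `θ|G_L`. If `Gal(L/K)`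
is abelian, there is a nonzero homomorphism from `ρ|G_L` to `θ|G_L` if and only if `ρ ⊗ χ` is a
subrepresentation of `θ` for some continuous character `χ` of `Gal(L/K)`.

Let `ρ|G_M` be irreducible for all finite subextensions `M` of `L` and let the determinant of `ρ` be
of finite order. Suppose that every `n`-dimensional subrepresentation of `θ|G_M`, `M` a finite
subextension of `L`, whose determinant has finite order on `G_L` has a determinant of finite order.
If there is a nonzero homomorphism from `ρ|G_L` to `θ|G_L`, then `ρ|G_M` is a subquotient of `θ|G_M`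
for a finite subextension `M` of `L`, and `ρ` is a subquotient of the representation of `G_K` induced
from `θ|G_M`. -/
theorem result (p : ℕ) [Fact p.Prime] (ℓ : ℕ) [Fact ℓ.Prime] (_hℓ : ℓ ≠ p) (K : Type) [Field K]
    [CharP K p] (n m : ℕ) (ρ : Rep K ℓ n) (θ : Rep K ℓ m) (hρ : Continuous ρ) (hθ : Continuous θ)
    (L : IntermediateField K (SeparableClosure K)) (hG : SolvableGalois L) :
    (IrreducibleOn ⊤ ρ → (Hom L ρ θ ↔ SubInducedOver L ρ θ)) ∧
    (IrreducibleOn ⊤ ρ → Semisimple θ → Subquotient (Grp L) ρ θ → SubInducedOver L ρ θ) ∧
    (IrreducibleOn ⊤ ρ → AbelianExt L → (Hom L ρ θ ↔ TwistOver L ρ θ)) ∧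
    (IrreducibleBelow L ρ → FiniteDet ⊤ (mat ρ) → DetRigid L n θ → Hom L ρ θ → Descends L ρ θ) := by
  obtain ⟨hGal, d, hd⟩ := id hG
  have hn : (L.fixingSubgroup).Normal := (InfiniteGalois.normal_iff_isGalois L).mpr hGal
  have key : IrreducibleOn ⊤ ρ → Hom L ρ θ → SubInducedOver L ρ θ := by
    intro hirr h
    obtain ⟨M, hML, hMf, χ, hχc, hχL, X, hX, hXχ⟩ :=
      Pool.Agent.H73.FF.eigen_solvable ρ θ hρ hθ L hn d hd h
    obtain ⟨Φ, hΦ1, hΦ2⟩ := Pool.Agent.H73.FF.induced_of_eigen ρ θ
      (Pool.Agent.H73.FF.irr_of_stm ρ hirr) M χ X hX hXχ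
    refine ⟨M, ⟨hML, hMf⟩, χ⁻¹, ⟨?_, fun u hu => ?_⟩, Φ, hΦ1, fun v => ⟨?_, fun x => ?_⟩⟩
    · exact Pool.Agent.H73.FF.inv_cont M χ hχc
    · exact Pool.Agent.H73.FF.inv_one_of M χ u (hχL u hu)
    · exact fun u g => (hΦ2 v).1 u g
    · funext g
      exact (hΦ2 v).2 x g
  refine ⟨fun hirr => ⟨key hirr, ?_⟩, fun hirr hss h =>
    key hirr (Pool.Agent.H73.FF.hom_of_sub L ρ θ hn hirr.1 hss h), fun hirr hab => ⟨?_, ?_⟩,
    fun hirr hdet hrig h => Pool.Agent.H73.FF.det_descend ρ θ hρ hθ L hG hirr hdet hrig h⟩
  · rintro ⟨M, ⟨hML, hMf⟩, χ, ⟨-, hχL⟩, Φ, hΦ1, hΦ2⟩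
    exact Pool.Agent.H73.FF.eigen_of_induced ρ θ hirr.1 L M hML χ hχL Φ hΦ1
      (fun v => ⟨fun u g => (hΦ2 v).1 u g, fun x g => congrFun ((hΦ2 v).2 x) g⟩)
  · intro h
    obtain ⟨χ, h1, h2, X, h3, h4⟩ := Pool.Agent.H73.FF.twist_abelian ρ θ hρ hθ
      (Pool.Agent.H73.FF.irr_of_stm ρ hirr) L hab h
    refine ⟨χ, h1, h2, X, h3, fun g => ?_⟩
    have h5 := h4 g
    show Pool.Agent.H73.FF.mat θ g * X = X * ((χ g : PadicAlgCl ℓ) •
      Pool.Agent.H73.FF.mat ρ g)
    rw [h5, Matrix.mul_smul]
  · rintro ⟨χ, -, hχ, X, hX, hXg⟩
    refine ⟨X, ?_, fun g hg => ?_⟩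
    · intro h0
      have h1 := hX (Pi.single ⟨0, hirr.1⟩ 1) (by rw [h0, Matrix.zero_mulVec])
      have h2 := congrFun h1 ⟨0, hirr.1⟩
      rw [Pi.single_eq_same] at h2
      exact one_ne_zero h2
    · have h5 : mat θ g * X = X * ((χ g : PadicAlgCl ℓ) • mat ρ g) := hXg g
      rw [hχ g hg, Units.val_one, one_smul] at h5
      exact h5


end Pool.Agent.Results.MP_80bee4_ag.SolvableCovers
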